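import Pool.Agent.H23.ZF.LSW
import Pool.Agent.H20.LX.T

/-!
Page lx (MP_52e316_nt), row LXF: the large sieve of GL(m) for the families with admissible weights, in a window.
-/

set_option autoImplicit false

namespace Pool.Agent.H23.LX

open MeasureTheory Pool.Agent.H27.L1.H34.GM Pool.Agent.H27.L1.H34.GZ Pool.Agent.H27.L1.H34.GU Pool.Agent.H27.L1.H34.GA
open Pool.Agent.H27.L1.H68.GHY Pool.Agent.H27.L1.H34.GHY Pool.Agent.H27.L1.H34.GZZ Pool.Agent.H27.L1.H68.GHK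
open Pool.Agent.H27.L1.H34.GHK (pl T_WYE pl_perm pl_mono cuspU_of isl_eq orthn_sub)
open Pool.Agent.H47.THN (B1)
open Pool.Agent.H20.LX
open Pool.Agent.H27.ZF (Fam)

/-- the Dirichlet polynomial with the coefficients `a n * lam n` -/
noncomputable def DX (lam a : ℕ → ℂ) (y : ℕ) (s : ℝ) : ℂ :=
  ∑ n ∈ Finset.Icc 1 y, a n * lam n * (n : ℂ) ^ (-((s : ℂ) * Complex.I))

/-- the coefficients adapted to the normalisation of `B1` -/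
noncomputable def xb (m : ℕ) (a : ℕ → ℂ) (y : ℕ) (τ : ℝ) (n : ℕ) : ℂ :=
  if 1 ≤ n ∧ n ≤ y then a n * (n : ℂ) ^ (-((τ : ℂ) * Complex.I)) *
    (((n : ℝ) ^ (-(((m : ℝ) - 1) / 2)) : ℝ) : ℂ) else 0

lemma cfy_xb (m : ℕ) (a : ℕ → ℂ) (y : ℕ) (τ : ℝ) : Cfy y (xb m a y τ) := by
  intro n hn
  unfold xb at hn
  by_contra h
  rw [if_neg h] at hn
  exact hn rfl

lemma tl_xb {m : ℕ} (lam a : ℕ → ℂ) {y n : ℕ} (τ : ℝ) (hn : n ∈ Finset.Icc 1 y) :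
    tl m lam (xb m a y τ) n = a n * lam n * (n : ℂ) ^ (-((τ : ℂ) * Complex.I)) := by
  obtain ⟨h1, h2⟩ := Finset.mem_Icc.1 hn
  have hn0 : (0 : ℝ) < n := by exact_mod_cast h1
  unfold tl xb
  rw [if_pos ⟨h1, h2⟩]
  have e1 : (n : ℂ) ^ (((m : ℂ) - 1) / 2) = (((n : ℝ) ^ (((m : ℝ) - 1) / 2) : ℝ) : ℂ) := by
    rw [Complex.ofReal_cpow hn0.le]
    push_cast
    rfl
  have e2 : (((n : ℝ) ^ (-(((m : ℝ) - 1) / 2)) : ℝ) : ℂ) *
      (((n : ℝ) ^ (((m : ℝ) - 1) / 2) : ℝ) : ℂ) = 1 := by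
    rw [← Complex.ofReal_mul, ← Real.rpow_add hn0, neg_add_cancel, Real.rpow_zero,
      Complex.ofReal_one]
  rw [e1]
  calc _ = a n * lam n * (n : ℂ) ^ (-((τ : ℂ) * Complex.I)) *
        ((((n : ℝ) ^ (-(((m : ℝ) - 1) / 2)) : ℝ) : ℂ) *
          (((n : ℝ) ^ (((m : ℝ) - 1) / 2) : ℝ) : ℂ)) := by ring
    _ = _ := by rw [e2, mul_one]

lemma xb_sq {m : ℕ} (a : ℕ → ℂ) {y n : ℕ} (τ ε : ℝ) (hε : 0 ≤ ε) (hn : n ∈ Finset.Icc 1 y) :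
    ‖xb m a y τ n‖ ^ 2 * (n : ℝ) ^ ((m : ℝ) - 1 + ε) ≤ (y : ℝ) ^ ε * ‖a n‖ ^ 2 := by
  obtain ⟨h1, h2⟩ := Finset.mem_Icc.1 hn
  have hn0 : (0 : ℝ) < n := by exact_mod_cast h1
  have hny : (n : ℝ) ≤ y := by exact_mod_cast h2
  unfold xb
  rw [if_pos ⟨h1, h2⟩, norm_mul, norm_mul, Complex.norm_real, Real.norm_eq_abs,
    abs_of_nonneg (Real.rpow_nonneg hn0.le _)]
  have h3 : ‖(n : ℂ) ^ (-((τ : ℂ) * Complex.I))‖ = 1 := by
    rw [Complex.norm_natCast_cpow_of_pos (by omega)]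
    simp
  have h4 : ((n : ℝ) ^ (-(((m : ℝ) - 1) / 2))) ^ 2 * (n : ℝ) ^ ((m : ℝ) - 1 + ε) = (n : ℝ) ^ ε := by
    rw [← Real.rpow_natCast, ← Real.rpow_mul hn0.le, ← Real.rpow_add hn0]
    congr 1
    push_cast
    ring
  rw [h3, mul_one, mul_pow]
  calc ‖a n‖ ^ 2 * ((n : ℝ) ^ (-(((m : ℝ) - 1) / 2))) ^ 2 * (n : ℝ) ^ ((m : ℝ) - 1 + ε)
      = (((n : ℝ) ^ (-(((m : ℝ) - 1) / 2))) ^ 2 * (n : ℝ) ^ ((m : ℝ) - 1 + ε)) * ‖a n‖ ^ 2 := by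
        ring
    _ = (n : ℝ) ^ ε * ‖a n‖ ^ 2 := by rw [h4]
    _ ≤ _ := by
        gcongr

/-- from `LSDX` to the polynomials `DX` -/
lemma dx_of_lsdx : ∃ C' : ℝ, 0 < C' ∧ ∀ {m : ℕ} {ε C : ℝ} {K : ℕ} {ι : Type} [Fintype ι]
    {W : ι → ENNReal} {lam : ι → ℕ → ℂ} {N : ℕ} {δ : ℝ}, 0 < ε → 0 < C → 1 ≤ N → 0 < δ →
    δ ≤ 1 / 2 → LSDX m ε C K W lam N δ → ∀ {y : ℕ}, 1 ≤ y → ∀ (a : ℕ → ℂ) (τ : ℝ),
    ∑ i, W i * ∫⁻ t in Set.Icc (-δ⁻¹) δ⁻¹, ENNReal.ofReal (‖DX (lam i) a y (t + τ)‖ ^ 2) ≤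
      ENNReal.ofReal (C' * (C * δ⁻¹ ^ (m ^ 2) * (N : ℝ) ^ ((m : ℝ) + ε) *
        (1 + Real.log (y * N * δ⁻¹)) ^ K * (1 + δ ^ m * y / N) ^ m *
          ((y : ℝ) ^ ε * ∑ n ∈ Finset.Icc 1 y, ‖a n‖ ^ 2))) := by
  obtain ⟨C', hC', hg⟩ := Pool.Agent.H27.L1.H14.GHY.pf_GAL
  refine ⟨C', hC', ?_⟩
  intro m ε C K ι _ W lam N δ hε hC hN hδ hδ1 h y hy a τ
  have hN1 : (1 : ℝ) ≤ N := by exact_mod_cast hN
  have hy1 : (1 : ℝ) ≤ y := by exact_mod_cast hy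
  have h0 := h y (xb m a y τ) hy (cfy_xb m a y τ)
  have h1 : ∀ i, ∫⁻ t in Set.Icc (-δ⁻¹) δ⁻¹, ENNReal.ofReal (‖DX (lam i) a y (t + τ)‖ ^ 2) ≤
      ENNReal.ofReal (C' * δ⁻¹ ^ 2) * ∫⁻ x0 in Set.Ioi (0 : ℝ),
        ENNReal.ofReal (‖B1 m (lam i) (xb m a y τ) y δ x0‖ ^ 2 * x0⁻¹) := by
    intro i
    have h2 := hg δ hδ hδ1 y (tl m (lam i) (xb m a y τ))
    have h3 : ∀ t : ℝ, DX (lam i) a y (t + τ) = ∑ k ∈ Finset.Icc 1 y,
        tl m (lam i) (xb m a y τ) k * (k : ℂ) ^ (-((t : ℂ) * Complex.I)) := by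
      intro t
      unfold DX
      refine Finset.sum_congr rfl fun n hn => ?_
      have hnc : (n : ℂ) ≠ 0 := by
        have := (Finset.mem_Icc.1 hn).1
        exact_mod_cast (by omega : n ≠ 0)
      rw [tl_xb (m := m) (lam i) a τ hn]
      have h4 : (n : ℂ) ^ (-(((t + τ : ℝ) : ℂ) * Complex.I)) =
          (n : ℂ) ^ (-((τ : ℂ) * Complex.I)) * (n : ℂ) ^ (-((t : ℂ) * Complex.I)) := by
        rw [← Complex.cpow_add _ _ hnc]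
        congr 1
        push_cast
        ring
      rw [h4]
      ring
    simp only [h3]
    refine h2.trans (le_of_eq ?_)
    congr 1
    refine lintegral_congr fun x0 => ?_
    unfold B1
    rw [Nat.floor_natCast]
  have hlog : 0 ≤ Real.log (y * N * δ⁻¹) := by
    apply Real.log_nonneg
    have h2 : (1 : ℝ) ≤ δ⁻¹ := by
      rw [le_inv_comm₀ one_pos hδ]
      linarith
    exact one_le_mul_of_one_le_of_one_le (one_le_mul_of_one_le_of_one_le hy1 hN1) h2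
  have hG : ∑ n ∈ Finset.Icc 1 y, ‖xb m a y τ n‖ ^ 2 * (n : ℝ) ^ ((m : ℝ) - 1 + ε) ≤
      (y : ℝ) ^ ε * ∑ n ∈ Finset.Icc 1 y, ‖a n‖ ^ 2 := by
    rw [Finset.mul_sum]
    exact Finset.sum_le_sum fun n hn => xb_sq a τ ε hε.le hn
  calc ∑ i, W i * ∫⁻ t in Set.Icc (-δ⁻¹) δ⁻¹, ENNReal.ofReal (‖DX (lam i) a y (t + τ)‖ ^ 2)
      ≤ ∑ i, W i * (ENNReal.ofReal (C' * δ⁻¹ ^ 2) * ∫⁻ x0 in Set.Ioi (0 : ℝ),
        ENNReal.ofReal (‖B1 m (lam i) (xb m a y τ) y δ x0‖ ^ 2 * x0⁻¹)) :=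
        Finset.sum_le_sum fun i _ => mul_le_mul' le_rfl (h1 i)
    _ = ENNReal.ofReal (C' * δ⁻¹ ^ 2) * ∑ i, W i * ∫⁻ x0 in Set.Ioi (0 : ℝ),
        ENNReal.ofReal (‖B1 m (lam i) (xb m a y τ) y δ x0‖ ^ 2 * x0⁻¹) := by
        rw [Finset.mul_sum]
        refine Finset.sum_congr rfl fun i _ => ?_
        ring
    _ ≤ ENNReal.ofReal (C' * δ⁻¹ ^ 2) * ENNReal.ofReal (C * δ ^ 2 * δ⁻¹ ^ (m ^ 2) *
        (N : ℝ) ^ ((m : ℝ) + ε) *
        (1 + Real.log (y * N * δ⁻¹)) ^ K * (1 + δ ^ m * y / N) ^ m *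
          ((y : ℝ) ^ ε * ∑ n ∈ Finset.Icc 1 y, ‖a n‖ ^ 2)) := by
        refine mul_le_mul' le_rfl (h0.trans (ENNReal.ofReal_le_ofReal ?_))
        exact mul_le_mul_of_nonneg_left hG (by positivity)
    _ = _ := by
        rw [← ENNReal.ofReal_mul (by positivity)]
        congr 1
        have e2 : δ⁻¹ ^ 2 * δ ^ 2 = 1 := by
          rw [← mul_pow, inv_mul_cancel₀ hδ.ne', one_pow]
        calc _ = (δ⁻¹ ^ 2 * δ ^ 2) * (C' * (C * δ⁻¹ ^ (m ^ 2) * (N : ℝ) ^ ((m : ℝ) + ε) *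
            (1 + Real.log (y * N * δ⁻¹)) ^ K * (1 + δ ^ m * y / N) ^ m *
              ((y : ℝ) ^ ε * ∑ n ∈ Finset.Icc 1 y, ‖a n‖ ^ 2))) := by ring
          _ = _ := by rw [e2, one_mul]

/-- the bound for given weights -/
def DBX (m : ℕ) (ε C : ℝ) {ι : Type} [Fintype ι] (W : ι → ENNReal) (lam : ι → ℕ → ℂ)
    (N : ℕ) (P : ℝ) : Prop :=
  ∀ (y : ℕ) (a : ℕ → ℂ), 1 ≤ y → ∀ τ : ℝ,
    ∑ i, W i * ∫⁻ t in Set.Icc (-P) P, ENNReal.ofReal (‖DX (lam i) a y (t + τ)‖ ^ 2) ≤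
      ENNReal.ofReal (C * (((N : ℝ) * P * y) ^ ε * ((N : ℝ) ^ m * P ^ (m ^ 2)) *
        (1 + y / (N * P ^ m)) ^ m * ∑ n ∈ Finset.Icc 1 y, ‖a n‖ ^ 2))

/-- from the inequality of Bessel -/
lemma dx_of_bes (hLSX : T_LSX) {m : ℕ} (hm1 : 1 ≤ m) {ε : ℝ} (hε : 0 < ε) {χ : ℝ → ℝ}
    (hχ : Prof χ) {cM CM : ℝ} {AM : ℕ} (hcM : 0 < cM) (hCM : 1 ≤ CM) {c' : ℝ} (hc' : 0 < c')
    (hc'1 : c' ≤ 1 / 2) : ∃ C : ℝ, 0 < C ∧ ∀ (N : ℕ) [NeZero N] (D : Set (V m)), 1 ≤ N →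
    DomZ m D → ∀ P : ℝ, 1 ≤ P → ∀ (ι : Type) [Fintype ι] (W : ι → ENNReal) (lam : ι → ℕ → ℂ),
    (∀ i, W i ≠ ⊤) → (∀ Y : ℝ, 2 ≤ Y → CM * N * (c' / P)⁻¹ ^ AM ≤ Y →
      BESX m W lam N D χ cM (c' / P) Y) → DBX m ε C W lam N P := by
  obtain ⟨C', hC', hdx⟩ := dx_of_lsdx
  obtain ⟨Ca, Ka, hCa, hLa⟩ := hLSX m hm1 (ε / 4) (by positivity) χ hχ cM CM AM hcM hCM
  obtain ⟨Cn, hCn, hnum⟩ := Pool.Agent.H23.ZF.db_num (m := m) (K := Ka) (ε := ε / 2)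
    (half_pos hε) (C := C' * Ca) (by positivity) hc' hc'1
  refine ⟨Cn, hCn, ?_⟩
  intro N _ D hN1 hD P hP ι _ W lam hWt hBes y a hy τ
  have hP0 : 0 < P := by linarith
  have hδ0 : 0 < c' / P := by positivity
  have hδ1 : c' / P ≤ 1 / 2 := by
    have : c' / P ≤ c' := div_le_self hc'.le hP
    linarith
  have h1 := hdx (by positivity) hCa hN1 hδ0 hδ1
    (hLa N D hN1 hD (c' / P) hδ0 hδ1 ι W lam hWt hBes) hy a τ
  have hN1' : (1 : ℝ) ≤ N := by exact_mod_cast hN1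
  have hy1 : (1 : ℝ) ≤ y := by exact_mod_cast hy
  have hPd : P ≤ (c' / P)⁻¹ := by
    rw [inv_div, le_div_iff₀ hc']
    nlinarith
  obtain ⟨G, hG⟩ : ∃ G : ℝ, G = ∑ n ∈ Finset.Icc 1 y, ‖a n‖ ^ 2 := ⟨_, rfl⟩
  have hG0 : 0 ≤ G := by
    rw [hG]
    exact Finset.sum_nonneg fun n _ => by positivity
  rw [← hG] at h1 ⊢
  have h2 : ∀ i, ∫⁻ t in Set.Icc (-P) P, ENNReal.ofReal (‖DX (lam i) a y (t + τ)‖ ^ 2) ≤
      ∫⁻ t in Set.Icc (-(c' / P)⁻¹) (c' / P)⁻¹, ENNReal.ofReal (‖DX (lam i) a y (t + τ)‖ ^ 2) :=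
    fun i => lintegral_mono_set (Set.Icc_subset_Icc (by linarith) hPd)
  refine (Finset.sum_le_sum fun i _ => mul_le_mul' le_rfl (h2 i)).trans (h1.trans
    (ENNReal.ofReal_le_ofReal ?_))
  have h3 := hnum N P y hN1' hP hy1
  rw [show ε / 2 / 2 = ε / 4 by ring] at h3
  have hz : 1 ≤ (N : ℝ) * P * y :=
    one_le_mul_of_one_le_of_one_le (one_le_mul_of_one_le_of_one_le hN1' hP) hy1
  have hz0 : 0 < (N : ℝ) * P * y := by linarith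
  have hy0 : (0 : ℝ) < y := by linarith
  have h4 : (y : ℝ) ^ (ε / 4) ≤ ((N : ℝ) * P * y) ^ (ε / 2) := by
    have h5 : (y : ℝ) ≤ (N : ℝ) * P * y := by
      have : 1 ≤ (N : ℝ) * P := one_le_mul_of_one_le_of_one_le hN1' hP
      nlinarith
    exact (Real.rpow_le_rpow hy0.le h5 (by positivity)).trans
      (Real.rpow_le_rpow_of_exponent_le hz (by linarith))
  have h2m : (1 : ℝ) ≤ 2 ^ (m - 1) := one_le_pow₀ (by norm_num)
  obtain ⟨X, hX⟩ : ∃ X : ℝ, X = C' * Ca * (c' / P)⁻¹ ^ (m ^ 2) * (N : ℝ) ^ ((m : ℝ) + ε / 4) *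
      (1 + Real.log (y * N * (c' / P)⁻¹)) ^ Ka * (1 + (c' / P) ^ m * y / N) ^ m := ⟨_, rfl⟩
  have hlog : 0 ≤ Real.log (y * N * (c' / P)⁻¹) := by
    apply Real.log_nonneg
    exact one_le_mul_of_one_le_of_one_le (one_le_mul_of_one_le_of_one_le hy1 hN1')
      (hP.trans hPd)
  have hX0 : 0 ≤ X := by
    rw [hX]
    positivity
  have h6 : X ≤ Cn * ((N : ℝ) * P * y) ^ (ε / 2) * ((N : ℝ) ^ m * P ^ (m ^ 2)) *
      (1 + y / (N * P ^ m)) ^ m := by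
    have h7 : X * y ≤ (Cn * ((N : ℝ) * P * y) ^ (ε / 2) * ((N : ℝ) ^ m * P ^ (m ^ 2)) *
      (1 + y / (N * P ^ m)) ^ m) * y := by
      calc X * y ≤ 2 ^ (m - 1) * (X * y) := le_mul_of_one_le_left (by positivity) h2m
        _ = 2 ^ (m - 1) * (C' * Ca * (c' / P)⁻¹ ^ (m ^ 2) * (N : ℝ) ^ ((m : ℝ) + ε / 4) *
            (1 + Real.log (y * N * (c' / P)⁻¹)) ^ Ka * y * (1 + (c' / P) ^ m * y / N) ^ m) := by
            rw [hX]
            ring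
        _ ≤ _ := h3
        _ = _ := by ring
    exact le_of_mul_le_mul_right h7 hy0
  calc C' * (Ca * (c' / P)⁻¹ ^ (m ^ 2) * (N : ℝ) ^ ((m : ℝ) + ε / 4) *
        (1 + Real.log (y * N * (c' / P)⁻¹)) ^ Ka * (1 + (c' / P) ^ m * y / N) ^ m *
          ((y : ℝ) ^ (ε / 4) * G))
      = X * ((y : ℝ) ^ (ε / 4) * G) := by
        rw [hX]
        ring
    _ ≤ (Cn * ((N : ℝ) * P * y) ^ (ε / 2) * ((N : ℝ) ^ m * P ^ (m ^ 2)) *
      (1 + y / (N * P ^ m)) ^ m) * (((N : ℝ) * P * y) ^ (ε / 2) * G) := by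
        gcongr
    _ = Cn * ((((N : ℝ) * P * y) ^ (ε / 2) * ((N : ℝ) * P * y) ^ (ε / 2)) *
        ((N : ℝ) ^ m * P ^ (m ^ 2)) * (1 + y / (N * P ^ m)) ^ m * G) := by ring
    _ = _ := by
        rw [← Real.rpow_add hz0, add_halves]

open Classical in
/-- orthonormal forms, weights `1` -/
theorem dx_one (hLSX : T_LSX) (hBOX : T_BOX) (m : ℕ) (hm1 : 1 ≤ m) (ε : ℝ) (hε : 0 < ε) : ∃ C : ℝ, 0 < C ∧
    ∀ (N : ℕ) [NeZero N] (T : ℕ → Finset (ZM m)) (D : Set (V m)), SysZ m N T D →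
      ∀ P : ℝ, 1 ≤ P → ∀ (S : Type) [Fintype S] [DecidableEq S]
        (F : S → Mat m → VN m N → ℂ) (lam : S → ℕ → ℂ),
        (∀ i, CusB m N T (F i) (lam i) ∧ Lip D (F i) P) → Orthn D F →
          DBX m ε C (fun _ : S => 1) lam N P := by
  obtain ⟨χ, hχ⟩ := pf_PRF
  obtain ⟨c0, CM, AM, hc0, hCM, hK⟩ := hBOX m χ hm1 hχ
  obtain ⟨c', hc', hc'1, hc'0⟩ : ∃ c' : ℝ, 0 < c' ∧ c' ≤ 1 / 2 ∧ c' ≤ c0 / 2 :=
    ⟨min (1 / 2) (c0 / 2), lt_min (by norm_num) (by positivity), min_le_left _ _,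
      min_le_right _ _⟩
  obtain ⟨C, hC, h⟩ := dx_of_bes hLSX hm1 hε hχ hc0 hCM hc' hc'1
  refine ⟨C, hC, ?_⟩
  intro N _ T D hS P hP S _ _ F lam hF hO
  have hP0 : 0 < P := by linarith
  have hδ0 : 0 < c' / P := by positivity
  have hδP : c' / P * P = c' := by field_simp
  have hδP1 : c' / P ≤ c' / P * P := le_mul_of_one_le_right hδ0.le hP
  have hδ1 : c' / P ≤ 1 / 2 := by linarith
  have hδP2 : c' / P * (1 + P) ≤ c0 := by linarith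
  have hN1 : 1 ≤ N := by
    have := hS.two_le
    omega
  exact h N D hN1 hS.dom P hP S (fun _ => 1) lam (fun _ => ENNReal.one_ne_top) (fun Y _ hY =>
    hK N T D hS S F lam P (fun i => ⟨(hF i).1, (hF i).2, mou_nU F hO i⟩) hO hP0.le (c' / P) hδ0
      hδ1 hδP2 Y hY)

open Classical in
/-- forms which generate orthogonal spaces, weights `1 / Hn` -/
theorem dx_hn (hLSX : T_LSX) (hBWX : T_BWX) (m : ℕ) (hm1 : 1 ≤ m) (r ε : ℝ) (hr : 0 < r) (hε : 0 < ε) : ∃ C : ℝ, 0 < C ∧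
    ∀ (N : ℕ) [NeZero N] (T : ℕ → Finset (ZM m)) (D : Set (V m)), SysZ m N T D →
      ∀ P : ℝ, 1 ≤ P → ∀ (S : Type) [Fintype S] [DecidableEq S]
        (F : S → Mat m → VN m N → ℂ) (lam : S → ℕ → ℂ),
        (∀ i, CusB m N T (F i) (lam i) ∧ Lip D (F i) P) → OrS D F →
          DBX m ε C (fun i => ENNReal.ofReal (Hn r D (F i))⁻¹) lam N P := by
  obtain ⟨χ, hχ⟩ := pf_PRF
  obtain ⟨c0, CM, AM, hc0, hCM, hK⟩ := hBWX m χ r hm1 hχ hr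
  obtain ⟨c', hc', hc'1, hc'0⟩ : ∃ c' : ℝ, 0 < c' ∧ c' ≤ 1 / 2 ∧ c' ≤ c0 / 2 :=
    ⟨min (1 / 2) (c0 / 2), lt_min (by norm_num) (by positivity), min_le_left _ _,
      min_le_right _ _⟩
  obtain ⟨C, hC, h⟩ := dx_of_bes hLSX hm1 hε hχ hc0 hCM hc' hc'1
  refine ⟨C, hC, ?_⟩
  intro N _ T D hS P hP S _ _ F lam hF hO
  have hP0 : 0 < P := by linarith
  have hδ0 : 0 < c' / P := by positivity
  have hδP : c' / P * P = c' := by field_simp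
  have hδP1 : c' / P ≤ c' / P * P := le_mul_of_one_le_right hδ0.le hP
  have hδ1 : c' / P ≤ 1 / 2 := by linarith
  have hδP2 : c' / P * (1 + P) ≤ c0 := by linarith
  have hN1 : 1 ≤ N := by
    have := hS.two_le
    omega
  exact h N D hN1 hS.dom P hP S _ lam (fun _ => ENNReal.ofReal_ne_top) (fun Y _ hY =>
    hK N T D hS S F lam P hF hO hP0.le (c' / P) hδ0 hδ1 hδP2 Y hY)

lemma dbx_mul {m : ℕ} {ε C CH : ℝ} (hCH : 0 ≤ CH) {ι : Type} [Fintype ι] {W W' : ι → ENNReal}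
    {lam : ι → ℕ → ℂ} {N : ℕ} {P : ℝ} (h : DBX m ε C W lam N P)
    (hW : ∀ i, W' i ≤ ENNReal.ofReal CH * W i) : DBX m ε (CH * C) W' lam N P := by
  intro y a hy τ
  refine (Finset.sum_le_sum fun i _ => mul_le_mul' (hW i) le_rfl).trans ?_
  simp only [mul_assoc (ENNReal.ofReal CH)]
  rw [← Finset.mul_sum]
  refine (mul_le_mul' le_rfl (h y a hy τ)).trans (le_of_eq ?_)
  rw [← ENNReal.ofReal_mul hCH]
  congr 1
  ring

open Classical in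
/-- spherical forms -/
theorem dx_sph (hLSX : T_LSX) (hBWX : T_BWX) (m : ℕ) (hm1 : 1 ≤ m) (ε : ℝ) (hε : 0 < ε) : ∃ C : ℝ, 0 < C ∧
    ∀ (N : ℕ) [NeZero N] (T : ℕ → Finset (ZM m)) (D : Set (V m)), SysZ m N T D →
      ∀ P : ℝ, 1 ≤ P → ∀ (S : Type) [Fintype S] [DecidableEq S]
        (F : S → Mat m → VN m N → ℂ) (lam : S → ℕ → ℂ) (mu : S → Fin m → ℂ) (W : S → ℝ),
        (∀ i, CuspU m N T (F i) (lam i) (mu i) ∧ Lip D (F i) P ∧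
          Monotone (fun j => (mu i j).im)) → Orthn D F → (∀ i, W i ≤ Wt (mu i)) →
          DBX m ε C (fun i => ENNReal.ofReal (W i)) lam N P := by
  obtain ⟨r, hr, hH⟩ := Pool.Agent.H27.L1.H52.GHK.c_HKW m hm1
  obtain ⟨CH, hCH, hH⟩ := hH ((m : ℝ) ^ 2)
  obtain ⟨C, hC, h⟩ := dx_hn hLSX hBWX m hm1 r ε hr hε
  refine ⟨CH * C, by positivity, ?_⟩
  intro N _ T D hS P hP S _ _ F lam mu W hF ho hW
  have hO := Pool.Agent.H27.L1.H34.GHK.c_ORS m N T D hS S F lam mu (fun i => (hF i).1) ho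
  refine dbx_mul hCH.le (h N T D hS P hP S F lam
    (fun i => ⟨Pool.Agent.H27.L1.H46.GHK.cusB_of_cuspU (hF i).1, (hF i).2.1⟩) hO) fun i => ?_
  rw [← ENNReal.ofReal_mul hCH.le]
  apply ENNReal.ofReal_le_ofReal
  have hnz : NZ (F i) := Pool.Agent.H27.L1.H46.GHK.nz_of_norm hm1 hS.dom (hO.one i)
  obtain ⟨h1, h2⟩ := hH N T D hS (F i) (lam i) (mu i) (hF i).1 (hO.one i)
    (Pool.Agent.H27.L1.H46.GHK.re_bd (mu i) (hF i).1.tr0
      (fun j => Pool.Agent.H27.L1.H34.GU.b_APU m N T (F i) (lam i) (mu i) hm1 (hF i).1.toEigU hnz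
        j)) (hF i).2.2
  have hWt : 0 < Wt (mu i) := Pool.Agent.H27.L1.H46.GHK.wt_pos (mu i)
  refine (hW i).trans ?_
  rw [← div_eq_mul_inv, le_div_iff₀ h2]
  rw [le_div_iff₀ hWt] at h1
  linarith

open Classical in
/-- one level, all the weights -/
theorem dxw (hLSX : T_LSX) (hBOX : T_BOX) (hBWX : T_BWX) (m : ℕ) (hm1 : 1 ≤ m) (ε : ℝ) (hε : 0 < ε) : ∃ C : ℝ, 0 < C ∧
    ∀ (N : ℕ) [NeZero N] (T : ℕ → Finset (ZM m)) (D : Set (V m)), SysZ m N T D →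
      ∀ P : ℝ, 1 ≤ P → ∀ (S : Type) [Fintype S] [DecidableEq S]
        (F : S → Mat m → VN m N → ℂ) (lam : S → ℕ → ℂ) (W : S → ℝ),
        (∀ i, CusB m N T (F i) (lam i) ∧ Lip D (F i) P) → Orthn D F → (∀ i, 0 ≤ W i) →
        (∀ i, W i ≤ 1 ∨ (∃ mu : Fin m → ℂ, EigU m N T (F i) (lam i) mu ∧ W i ≤ pl mu) ∨
          ((∀ j, j ≠ i → ∀ u : Mat m, u.det ≠ 0 → ip D (rt u (F i)) (F j) = 0) ∧
            W i ≤ (Hn (1 / (2 * (m : ℝ))) D (F i))⁻¹)) →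
          DBX m ε C (fun i => ENNReal.ofReal (W i)) lam N P := by
  have hm0 : (0 : ℝ) < m := by exact_mod_cast hm1
  obtain ⟨C1, hC1, h1⟩ := dx_one hLSX hBOX m hm1 ε hε
  obtain ⟨C2, hC2, h2⟩ := dx_sph hLSX hBWX m hm1 ε hε
  obtain ⟨C3, hC3, h3⟩ := dx_hn hLSX hBWX m hm1 (1 / (2 * (m : ℝ))) ε (by positivity) hε
  refine ⟨C1 + C2 + C3, by positivity, ?_⟩
  intro N _ T D hS P hP S _ _ F lam W hF ho hW0 hW
  have hb1 := h1 N T D hS P hP S F lam hF ho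
  -- the three kinds
  obtain ⟨p2, hp2⟩ : ∃ p : S → Prop, p = fun i => ∃ mu : Fin m → ℂ,
    EigU m N T (F i) (lam i) mu ∧ W i ≤ pl mu := ⟨_, rfl⟩
  obtain ⟨p3, hp3⟩ : ∃ p : S → Prop, p = fun i =>
    (∀ j, j ≠ i → ∀ u : Mat m, u.det ≠ 0 → ip D (rt u (F i)) (F j) = 0) ∧
      W i ≤ (Hn (1 / (2 * (m : ℝ))) D (F i))⁻¹ := ⟨_, rfl⟩
  have hp2' : ∀ i, p2 i → ∃ mu : Fin m → ℂ, EigU m N T (F i) (lam i) mu ∧ W i ≤ pl mu := by
    intro i hi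
    rw [hp2] at hi
    exact hi
  have hp3' : ∀ i, p3 i → (∀ j, j ≠ i → ∀ u : Mat m, u.det ≠ 0 → ip D (rt u (F i)) (F j) = 0) ∧
      W i ≤ (Hn (1 / (2 * (m : ℝ))) D (F i))⁻¹ := by
    intro i hi
    rw [hp3] at hi
    exact hi
  -- spherical forms
  have hmu : ∀ i : {i // p2 i}, ∃ mu : Fin m → ℂ, CuspU m N T (F i.1) (lam i.1) mu ∧
      Monotone (fun j => (mu j).im) ∧ W i.1 ≤ Wt mu := by
    intro i
    obtain ⟨mu, h5, h6⟩ := hp2' i.1 i.2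
    have hmo : Monotone (fun j => ((mu ∘ Tuple.sort (fun j => (mu j).im)) j).im) :=
      Tuple.monotone_sort (fun j => (mu j).im)
    refine ⟨mu ∘ Tuple.sort (fun j => (mu j).im), cuspU_of (hF i.1).1
      (Pool.Agent.H27.L1.H34.GHK.c_WYE m N T (F i.1) (lam i.1) mu _ h5), hmo, ?_⟩
    rw [← pl_mono _ hmo, pl_perm]
    exact h6
  choose mu hmu1 hmu2 hmu3 using hmu
  have hb2 := h2 N T D hS P hP {i // p2 i} (fun i => F i.1) (fun i => lam i.1) mu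
    (fun i => W i.1) (fun i => ⟨hmu1 i, (hF i.1).2, hmu2 i⟩) (orthn_sub ho p2) hmu3
  -- forms with orthogonal translates
  have hO3 : OrS D (fun i : {i // p3 i} => F i.1) := by
    refine ⟨fun i => mou_nU F ho i.1, fun i j hij u hu => ?_⟩
    exact (hp3' i.1 i.2).1 j.1 (fun h5 => hij (Subtype.ext h5.symm)) u hu
  have hb3 := h3 N T D hS P hP {i // p3 i} (fun i => F i.1) (fun i => lam i.1)
    (fun i => hF i.1) hO3
  intro y b hy τ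
  obtain ⟨a, ha⟩ : ∃ a : S → ENNReal, a = fun i => ∫⁻ t in Set.Icc (-P) P,
      ENNReal.ofReal (‖DX (lam i) b y (t + τ)‖ ^ 2) := ⟨_, rfl⟩
  obtain ⟨B, hB⟩ : ∃ B : ℝ, B = ((N : ℝ) * P * y) ^ ε * ((N : ℝ) ^ m * P ^ (m ^ 2)) *
        (1 + y / (N * P ^ m)) ^ m * ∑ n ∈ Finset.Icc 1 y, ‖b n‖ ^ 2 := ⟨_, rfl⟩
  have hB0 : 0 ≤ B := by
    rw [hB]
    exact mul_nonneg (by positivity) (Finset.sum_nonneg fun n _ => by positivity)
  have hB1 : ∑ i, a i ≤ ENNReal.ofReal (C1 * B) := by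
    have h4 := hb1 y b hy τ
    simp only [one_mul] at h4
    rw [ha, hB]
    refine h4.trans (le_of_eq ?_)
    congr 1
  have hB2 : ∑ i ∈ Finset.univ.filter p2, ENNReal.ofReal (W i) * a i ≤
      ENNReal.ofReal (C2 * B) := by
    rw [Finset.sum_subtype (Finset.univ.filter p2) (p := p2) (fun i => by simp)
      (fun i => ENNReal.ofReal (W i) * a i), hB, ha]
    refine (hb2 y b hy τ).trans (le_of_eq ?_)
    congr 1
  have hB3 : ∑ i ∈ Finset.univ.filter p3,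
      ENNReal.ofReal (Hn (1 / (2 * (m : ℝ))) D (F i))⁻¹ * a i ≤ ENNReal.ofReal (C3 * B) := by
    rw [Finset.sum_subtype (Finset.univ.filter p3) (p := p3) (fun i => by simp)
      (fun i => ENNReal.ofReal (Hn (1 / (2 * (m : ℝ))) D (F i))⁻¹ * a i), hB, ha]
    refine (hb3 y b hy τ).trans (le_of_eq ?_)
    congr 1
  have hpt : ∀ i, ENNReal.ofReal (W i) * a i ≤ a i +
      (if p2 i then ENNReal.ofReal (W i) * a i else 0) +
      (if p3 i then ENNReal.ofReal (Hn (1 / (2 * (m : ℝ))) D (F i))⁻¹ * a i else 0) := by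
    intro i
    rcases hW i with h4 | h4 | h4
    · refine le_trans ?_ (le_trans (le_self_add) le_self_add)
      refine mul_le_of_le_one_left' ?_
      rw [← ENNReal.ofReal_one]
      exact ENNReal.ofReal_le_ofReal h4
    · have h7 : p2 i := by rw [hp2]; exact h4
      rw [if_pos h7]
      exact le_trans le_add_self le_self_add
    · have h7 : p3 i := by rw [hp3]; exact h4
      rw [if_pos h7]
      exact (mul_le_mul' (ENNReal.ofReal_le_ofReal h4.2) le_rfl).trans le_add_self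
  calc ∑ i, ENNReal.ofReal (W i) * ∫⁻ t in Set.Icc (-P) P,
        ENNReal.ofReal (‖DX (lam i) b y (t + τ)‖ ^ 2)
      = ∑ i, ENNReal.ofReal (W i) * a i := by rw [ha]
    _ ≤ ∑ i, (a i + (if p2 i then ENNReal.ofReal (W i) * a i else 0) +
        (if p3 i then ENNReal.ofReal (Hn (1 / (2 * (m : ℝ))) D (F i))⁻¹ * a i else 0)) :=
        Finset.sum_le_sum (fun i _ => hpt i)
    _ = ∑ i, a i + ∑ i ∈ Finset.univ.filter p2, ENNReal.ofReal (W i) * a i +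
        ∑ i ∈ Finset.univ.filter p3,
          ENNReal.ofReal (Hn (1 / (2 * (m : ℝ))) D (F i))⁻¹ * a i := by
        rw [Finset.sum_add_distrib, Finset.sum_add_distrib, Finset.sum_filter, Finset.sum_filter]
    _ ≤ ENNReal.ofReal (C1 * B) + ENNReal.ofReal (C2 * B) + ENNReal.ofReal (C3 * B) :=
        add_le_add (add_le_add hB1 hB2) hB3
    _ = _ := by
        rw [← ENNReal.ofReal_add (by positivity) (by positivity),
          ← ENNReal.ofReal_add (by positivity) (by positivity), hB]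
        congr 1
        ring

/-- LXF -/
theorem pf_LXF (hLSX : T_LSX) (hBOX : T_BOX) (hBWX : T_BWX) : T_LXF := by
  intro m ε hm1 hε
  obtain ⟨C, hC, h⟩ := dxw hLSX hBOX hBWX m hm1 ε hε
  refine ⟨C, hC, ?_⟩
  intro N _ T D hS P hP S _ _ F lam W hFam y a τ hy
  have h1 := h N T D hS P hP S F lam W hFam.cus hFam.orth hFam.nn hFam.wt y a hy τ
  unfold DX at h1
  refine h1.trans (le_of_eq ?_)
  congr 1
  ring

end Pool.Agent.H23.LX
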