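import Pool.Agent.H23.LX.LSX
import Pool.Agent.H23.LX.LXF
import Pool.Agent.H88.LX.H2X
import Pool.Agent.H88.LX.ENX
import Pool.Agent.H12.ZR.EMNC
import Pool.Agent.H69.LX.BOX
import Pool.Agent.H31.LX.BWX
import Pool.Agent.H31.ZR.All

/-!
Page lx (MP_52e316_nt): the rows of the large sieve composed.
-/

set_option autoImplicit false

namespace Pool.Agent.H23.LX

open Pool.Agent.H20.LX

theorem c_H2X : T_H2X :=
  Pool.Agent.H88.LX.pf_H2X20 Pool.Agent.H27.L1.H34.GZ.a_UNL Pool.Agent.H27.L1.H23.GHY.All.c_VTH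
    Pool.Agent.H27.L1.H23.GHY.All.c_CLD Pool.Agent.H27.L1.H23.GHY.All.c_CNV
    Pool.Agent.H27.L1.H34.GZ.a_CNT Pool.Agent.H27.L1.H34.GU.b_ALU Pool.Agent.H27.L1.H34.GZ.a_ALZ
    Pool.Agent.H27.L1.H34.GZ.a_IDX

theorem c_ENX : T_ENX :=
  Pool.Agent.H88.LX.pf_ENX c_H2X Pool.Agent.H12.ZR.c_EMX Pool.Agent.H27.L1.H34.GU.b_KLI
    Pool.Agent.H27.L1.H34.GZ.a_VLM Pool.Agent.H27.L1.H34.GZ.a_SEX Pool.Agent.H27.L1.H34.GZ.a_DYM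
    Pool.Agent.H27.L1.H34.GU.b_ALU Pool.Agent.H27.L1.H34.GZ.a_ALZ

theorem c_LSX : T_LSX := pf_LSX c_ENX Pool.Agent.H27.L1.H23.GHY.All.c_TBS

theorem c_BWX : T_BWX := Pool.Agent.H31.LX.pf_BWX Pool.Agent.H69.LX.c_KX1 Pool.Agent.H31.ZR.c_BEKM

/-- the large sieve of `GL_m` -/
theorem c_LXF : T_LXF := pf_LXF c_LSX Pool.Agent.H69.LX.c_BOX c_BWX

end Pool.Agent.H23.LX
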