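import Pool.Agent.H20.LX.T
import Pool.Agent.H27.L1.H23.GHK.WTS

/-!
Page lx (MP_52e316_nt), row LSX: the large sieve in mean square form from the inequality of Bessel.
-/

set_option autoImplicit false

namespace Pool.Agent.H23.LX

open MeasureTheory Pool.Agent.H27.L1.H34.GM Pool.Agent.H27.L1.H34.GZ Pool.Agent.H27.L1.H34.GU
  Pool.Agent.H27.L1.H34.GA Pool.Agent.H27.L1.H68.GHY Pool.Agent.H27.L1.H34.GHY
open Pool.Agent.H47.THN (B1)
open Pool.Agent.H20.LX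

private lemma ls_sum {α ι : Type} [MeasurableSpace α] [DecidableEq ι] (μ : Measure α)
    (s : Finset ι) (f : ι → α → ENNReal) :
    ∑ i ∈ s, ∫⁻ x, f i x ∂μ ≤ ∫⁻ x, ∑ i ∈ s, f i x ∂μ := by
  induction s using Finset.induction_on with
  | empty => simp
  | insert a s ha ih =>
    rw [Finset.sum_insert ha]
    have h1 : ∀ x, ∑ i ∈ insert a s, f i x = f a x + ∑ i ∈ s, f i x := fun x =>
      Finset.sum_insert ha
    simp only [h1]
    exact (add_le_add le_rfl ih).trans (le_lintegral_add _ _)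

private lemma ls_log {CM Nr y di : ℝ} {A : ℕ} (hCM : 1 ≤ CM) (hN : 1 ≤ Nr) (hy : 1 ≤ y)
    (hd : 2 ≤ di) :
    1 + Real.log (y * max 2 (CM * Nr * di ^ A) * Nr) ≤
      (Real.log (2 * CM) + A + 3) * (1 + Real.log (y * Nr * di)) := by
  have hd1 : (1 : ℝ) ≤ di := by linarith
  have hdA : (1 : ℝ) ≤ di ^ A := one_le_pow₀ hd1
  have h1 : max 2 (CM * Nr * di ^ A) ≤ 2 * CM * Nr * di ^ A := by
    have e1 : (1 : ℝ) ≤ CM * Nr * di ^ A := by
      have e2 : (1 : ℝ) ≤ CM * Nr := one_le_mul_of_one_le_of_one_le hCM hN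
      exact one_le_mul_of_one_le_of_one_le e2 hdA
    refine max_le ?_ ?_
    · nlinarith
    · nlinarith
  have hyN : (1 : ℝ) ≤ y * Nr := one_le_mul_of_one_le_of_one_le hy hN
  have hyNd : (1 : ℝ) ≤ y * Nr * di := one_le_mul_of_one_le_of_one_le hyN hd1
  have hL : 0 ≤ Real.log (y * Nr * di) := Real.log_nonneg hyNd
  have hM : 0 ≤ Real.log (2 * CM) := Real.log_nonneg (by linarith)
  have h2 : y * max 2 (CM * Nr * di ^ A) * Nr ≤ 2 * CM * (y * Nr * di) ^ (A + 2) := by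
    have e1 : y * max 2 (CM * Nr * di ^ A) * Nr ≤ y * (2 * CM * Nr * di ^ A) * Nr := by
      gcongr
    refine e1.trans ?_
    have e3 : Nr ≤ Nr ^ (A + 1) := le_self_pow₀ hN (by omega)
    have e4 : y ≤ y ^ (A + 2) := le_self_pow₀ hy (by omega)
    have e5 : di ^ A ≤ di ^ (A + 2) := pow_le_pow_right₀ hd1 (by omega)
    have e6 : y * (2 * CM * Nr * di ^ A) * Nr = 2 * CM * (y * (Nr * Nr) * di ^ A) := by ring
    have e7 : Nr * Nr ≤ Nr ^ (A + 2) := by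
      calc Nr * Nr ≤ Nr ^ (A + 1) * Nr := by gcongr
        _ = Nr ^ (A + 2) := by ring
    rw [e6, mul_pow, mul_pow]
    gcongr
  have h0 : 0 < y * max 2 (CM * Nr * di ^ A) * Nr := by positivity
  have h3 : Real.log (y * max 2 (CM * Nr * di ^ A) * Nr) ≤
      Real.log (2 * CM) + (A + 2) * Real.log (y * Nr * di) := by
    refine (Real.log_le_log h0 h2).trans ?_
    rw [Real.log_mul (by positivity) (by positivity), Real.log_pow]
    push_cast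
    exact le_rfl
  have hA : (0 : ℝ) ≤ A := Nat.cast_nonneg A
  nlinarith [mul_nonneg hM hL, mul_nonneg hA hL]

/-- LSX -/
theorem pf_LSX (hENX : T_ENX) (hTBS : T_TBS) : T_LSX := by
  classical
  intro m hm1 ε hε χ hχ cM CM AM hcM hCM
  obtain ⟨CE, K, hCE, hE⟩ := hENX m hm1 ε hε
  obtain ⟨cT, CT, hcT, hCT, hTb⟩ := hTBS m χ hm1 hχ
  have hB : 0 < Real.log (2 * CM) + AM + 3 := by
    have := Real.log_nonneg (show (1 : ℝ) ≤ 2 * CM by linarith)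
    positivity
  refine ⟨(cM * cT ^ 2)⁻¹ * CE * (Real.log (2 * CM) + AM + 3) ^ K, K, by positivity, ?_⟩
  intro N _ D hN2 hD δ hδ hδ2 ι _ W lam hWt hBes y a hy ha
  have hdi : (2 : ℝ) ≤ δ⁻¹ := by
    rw [le_inv_comm₀ (by norm_num) hδ]
    linarith
  have hN1 : (1 : ℝ) ≤ N := by exact_mod_cast (by omega : 1 ≤ N)
  have hN0 : (0 : ℝ) < N := by linarith
  have hy1 : (1 : ℝ) ≤ y := by exact_mod_cast hy
  set Y : ℝ := max 2 (CM * N * δ⁻¹ ^ AM) with hY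
  have hY2 : (2 : ℝ) ≤ Y := le_max_left _ _
  have hY1 : CM * N * δ⁻¹ ^ AM ≤ Y := le_max_right _ _
  set κ : ℝ := cM * (cT * δ ^ (m ^ 2 - 1)) ^ 2 with hκ
  have hκ0 : 0 < κ := by positivity
  have hκT : κ ≤ cM * tb m χ δ ^ 2 := by
    rw [hκ]
    have := (hTb δ hδ hδ2).1
    gcongr
  obtain ⟨ω, hω⟩ : ∃ ω : ℕ → ENNReal, ω = fun n => ENNReal.ofReal ‖a n‖ := ⟨_, rfl⟩
  have hωn : ∀ n, ω n = ENNReal.ofReal ‖a n‖ := fun n => by rw [hω]
  -- the bound at each point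
  have h1 : ∀ x0 : ℝ, 0 < x0 → ENNReal.ofReal κ *
      ∑ i, W i * ENNReal.ofReal (‖B1 m (lam i) a y δ x0‖ ^ 2 * x0⁻¹) ≤
      (∫⁻ g in DY D Y, Ew N D ω δ x0 (mt g) ∂(hm m)) * ENNReal.ofReal x0⁻¹ := by
    intro x0 hx0
    have e1 := hBes Y hY2 hY1 y a x0 hy ha hx0
    rw [← hω] at e1
    have e2 : ENNReal.ofReal κ * ∑ i, W i * ENNReal.ofReal (‖B1 m (lam i) a y δ x0‖ ^ 2) ≤
        ENNReal.ofReal (cM * tb m χ δ ^ 2) *
          ∑ i, W i * ENNReal.ofReal (‖B1 m (lam i) a y δ x0‖ ^ 2) :=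
      mul_le_mul' (ENNReal.ofReal_le_ofReal hκT) le_rfl
    have e3 := e2.trans e1
    have e4 : ENNReal.ofReal κ * ∑ i, W i * ENNReal.ofReal (‖B1 m (lam i) a y δ x0‖ ^ 2 * x0⁻¹) =
        (ENNReal.ofReal κ * ∑ i, W i * ENNReal.ofReal (‖B1 m (lam i) a y δ x0‖ ^ 2)) *
          ENNReal.ofReal x0⁻¹ := by
      have e5 : ∀ i, W i * ENNReal.ofReal (‖B1 m (lam i) a y δ x0‖ ^ 2 * x0⁻¹) =
          W i * ENNReal.ofReal (‖B1 m (lam i) a y δ x0‖ ^ 2) * ENNReal.ofReal x0⁻¹ := fun i => by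
        rw [ENNReal.ofReal_mul (by positivity), mul_assoc]
      simp only [e5]
      rw [← Finset.sum_mul]
      ring
    rw [e4]
    exact mul_le_mul' e3 le_rfl
  -- integrate
  obtain ⟨R, hR⟩ : ∃ R : ℝ, R = ∑ n ∈ Finset.Icc 1 y, ‖a n‖ ^ 2 *
      ((n : ℝ) ^ ((m : ℝ) - 1 + ε) * (1 + δ ^ m * n / N) ^ m) := ⟨_, rfl⟩
  have hR0 : 0 ≤ R := by
    rw [hR]
    exact Finset.sum_nonneg fun n _ => by positivity
  have hsum : ∑ n ∈ Finset.Icc 1 y, ω n ^ 2 *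
      ENNReal.ofReal ((n : ℝ) ^ ((m : ℝ) - 1 + ε) * (1 + δ ^ m * n / N) ^ m) =
      ENNReal.ofReal R := by
    rw [hR, ENNReal.ofReal_sum_of_nonneg (fun n _ => by positivity)]
    refine Finset.sum_congr rfl fun n _ => ?_
    rw [hωn, ← ENNReal.ofReal_pow (norm_nonneg _), ← ENNReal.ofReal_mul (by positivity)]
  have h2 : ENNReal.ofReal κ * ∑ i, W i * ∫⁻ x0 in Set.Ioi (0 : ℝ),
      ENNReal.ofReal (‖B1 m (lam i) a y δ x0‖ ^ 2 * x0⁻¹) ≤
      ENNReal.ofReal (CE * δ ^ (m ^ 2) * (N : ℝ) ^ ((m : ℝ) + ε) *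
        (1 + Real.log (y * Y * N)) ^ K * R) := by
    have hlog : 0 ≤ 1 + Real.log (y * Y * N) := by
      have e1 : (1 : ℝ) ≤ y * Y := one_le_mul_of_one_le_of_one_le hy1 (by linarith)
      have e2 : (1 : ℝ) ≤ y * Y * N := one_le_mul_of_one_le_of_one_le e1 hN1
      have := Real.log_nonneg e2
      linarith
    have h0 := hE N D hN2 hD ω (by
      rw [hωn]
      have : a 0 = 0 := by
        by_contra h
        have := (ha 0 h).1
        omega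
      rw [this, norm_zero, ENNReal.ofReal_zero]) (fun n => by
      rw [hωn]
      exact ENNReal.ofReal_ne_top) y hy (fun n hn => by
      rw [hωn]
      have : a n = 0 := by
        by_contra h
        have := (ha n h).2
        omega
      rw [this, norm_zero, ENNReal.ofReal_zero]) Y δ hY2 hδ hδ2
    rw [hsum, ← ENNReal.ofReal_mul (by positivity)] at h0
    refine le_trans ?_ h0
    have h3 : ∀ i, W i * ∫⁻ x0 in Set.Ioi (0 : ℝ),
        ENNReal.ofReal (‖B1 m (lam i) a y δ x0‖ ^ 2 * x0⁻¹) = ∫⁻ x0 in Set.Ioi (0 : ℝ),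
        W i * ENNReal.ofReal (‖B1 m (lam i) a y δ x0‖ ^ 2 * x0⁻¹) := fun i =>
      (lintegral_const_mul' _ _ (hWt i)).symm
    simp only [h3]
    refine (mul_le_mul' le_rfl (ls_sum _ Finset.univ _)).trans ?_
    rw [← lintegral_const_mul' _ _ ENNReal.ofReal_ne_top]
    exact setLIntegral_mono' measurableSet_Ioi fun x0 hx0 => h1 x0 hx0
  set S : ENNReal := ∑ i, W i * ∫⁻ x0 in Set.Ioi (0 : ℝ),
      ENNReal.ofReal (‖B1 m (lam i) a y δ x0‖ ^ 2 * x0⁻¹) with hSdef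
  have hk1 : ENNReal.ofReal κ ≠ 0 := by
    rw [Ne, ENNReal.ofReal_eq_zero, not_le]
    exact hκ0
  have h3 : S = ENNReal.ofReal κ⁻¹ * (ENNReal.ofReal κ * S) := by
    rw [ENNReal.ofReal_inv_of_pos hκ0, ← mul_assoc, ENNReal.inv_mul_cancel hk1
      ENNReal.ofReal_ne_top, one_mul]
  rw [h3]
  refine (mul_le_mul' le_rfl h2).trans ?_
  rw [← ENNReal.ofReal_mul (by positivity)]
  apply ENNReal.ofReal_le_ofReal
  have hlog0 : 0 ≤ Real.log (y * N * δ⁻¹) := by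
    apply Real.log_nonneg
    have e2 : (1 : ℝ) ≤ y * N := one_le_mul_of_one_le_of_one_le hy1 hN1
    exact one_le_mul_of_one_le_of_one_le e2 (by linarith)
  have h4 := ls_log (A := AM) hCM hN1 hy1 hdi
  rw [← hY] at h4
  have h5 : 0 ≤ 1 + Real.log (y * Y * N) := by
    have e1 : (1 : ℝ) ≤ y * Y := one_le_mul_of_one_le_of_one_le hy1 (by linarith)
    have e2 : (1 : ℝ) ≤ y * Y * N := one_le_mul_of_one_le_of_one_le e1 hN1
    have := Real.log_nonneg e2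
    linarith
  have h6 : (1 + Real.log (y * Y * N)) ^ K ≤
      (Real.log (2 * CM) + AM + 3) ^ K * (1 + Real.log (y * N * δ⁻¹)) ^ K := by
    rw [← mul_pow]
    exact pow_le_pow_left₀ h5 h4 K
  have h7 : κ⁻¹ * δ ^ (m ^ 2) = (cM * cT ^ 2)⁻¹ * (δ ^ 2 * δ⁻¹ ^ (m ^ 2)) := by
    rw [hκ]
    have hm2 : 1 ≤ m ^ 2 := Nat.one_le_pow _ _ (by omega)
    obtain ⟨n, hn⟩ : ∃ n, m ^ 2 = n + 1 := ⟨m ^ 2 - 1, by omega⟩
    rw [hn, Nat.add_sub_cancel, inv_pow]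
    field_simp
    ring
  have h8 : R ≤ (1 + δ ^ m * y / N) ^ m *
      ∑ n ∈ Finset.Icc 1 y, ‖a n‖ ^ 2 * (n : ℝ) ^ ((m : ℝ) - 1 + ε) := by
    rw [hR, Finset.mul_sum]
    refine Finset.sum_le_sum fun n hn => ?_
    have hny : (n : ℝ) ≤ y := by exact_mod_cast (Finset.mem_Icc.1 hn).2
    have e1 : (1 + δ ^ m * n / N) ^ m ≤ (1 + δ ^ m * y / N) ^ m := by
      gcongr
    calc ‖a n‖ ^ 2 * ((n : ℝ) ^ ((m : ℝ) - 1 + ε) * (1 + δ ^ m * n / N) ^ m)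
        = (1 + δ ^ m * n / N) ^ m * (‖a n‖ ^ 2 * (n : ℝ) ^ ((m : ℝ) - 1 + ε)) := by ring
      _ ≤ _ := mul_le_mul_of_nonneg_right e1 (by positivity)
  obtain ⟨G, hG⟩ : ∃ G : ℝ, G = ∑ n ∈ Finset.Icc 1 y, ‖a n‖ ^ 2 * (n : ℝ) ^ ((m : ℝ) - 1 + ε) :=
    ⟨_, rfl⟩
  have hG0 : 0 ≤ G := by
    rw [hG]
    exact Finset.sum_nonneg fun n _ => by positivity
  rw [← hG] at h8 ⊢
  calc κ⁻¹ * (CE * δ ^ (m ^ 2) * (N : ℝ) ^ ((m : ℝ) + ε) *
        (1 + Real.log (y * Y * N)) ^ K * R)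
      = (κ⁻¹ * δ ^ (m ^ 2)) * (CE * (N : ℝ) ^ ((m : ℝ) + ε)) *
        ((1 + Real.log (y * Y * N)) ^ K * R) := by ring
    _ ≤ (κ⁻¹ * δ ^ (m ^ 2)) * (CE * (N : ℝ) ^ ((m : ℝ) + ε)) *
          (((Real.log (2 * CM) + AM + 3) ^ K * (1 + Real.log (y * N * δ⁻¹)) ^ K) *
            ((1 + δ ^ m * y / N) ^ m * G)) := by
        have e1 : 0 ≤ (κ⁻¹ * δ ^ (m ^ 2)) * (CE * (N : ℝ) ^ ((m : ℝ) + ε)) := by positivity
        refine mul_le_mul_of_nonneg_left ?_ e1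
        exact mul_le_mul h6 h8 hR0 (by positivity)
    _ = _ := by
        rw [h7]
        ring

end Pool.Agent.H23.LX
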